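import Pool.Agent.H37.SB.Targets

namespace Pool.Agent.H22.SB

open Finset Pool.Agent.H36Sq Pool.Agent.H37.SB

/-- The fourth bit is the majority of the first three. -/
def Maj (p : Fin 4 → ZMod 2) : Prop := p 3 = p 0 * p 1 + p 1 * p 2 + p 2 * p 0

theorem loc_bits : ∀ s a0 a1 a2 a3 a4 a5 a6 a7 : ZMod 2,
    (a7 = a4 * a5 + a5 * (a4 + a5 + a6) + (a4 + a5 + a6) * a4) →
    (a7 + a2 = (a4 + s + a0 + a1) * a5 + a5 * (a4 + a5 + a6 + s + a0 + a1 + a2 + a3) +
      (a4 + a5 + a6 + s + a0 + a1 + a2 + a3) * (a4 + s + a0 + a1)) →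
    (a7 + a0 = a4 * (a5 + s + a2 + a3) +
      (a5 + s + a2 + a3) * (a4 + a5 + a6 + s + a0 + a1 + a2 + a3) +
      (a4 + a5 + a6 + s + a0 + a1 + a2 + a3) * a4) →
    (a7 + a0 + a2 + s = (a4 + s + a0 + a1) * (a5 + s + a2 + a3) +
      (a5 + s + a2 + a3) * (a4 + a5 + a6) + (a4 + a5 + a6) * (a4 + s + a0 + a1)) →
    a0 = a1 ∧ a2 = a3 ∧ (s = 0 → a0 = 0 ∧ a2 = 0) := by
  decide +kernel

theorem loc_maj (s : ZMod 2) (u : Fin 8 → ZMod 2) (h1 : Maj (pl1 u)) (h2 : Maj (pl2 s u))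
    (h3 : Maj (pl3 s u)) (h4 : Maj (pl4 s u)) :
    u 0 = u 1 ∧ u 2 = u 3 ∧ (s = 0 → u 0 = 0 ∧ u 2 = 0) := by
  refine loc_bits s (u 0) (u 1) (u 2) (u 3) (u 4) (u 5) (u 6) (u 7) ?_ ?_ ?_ ?_
  · simpa [Maj, pl1] using h1
  · simpa [Maj, pl2] using h2
  · simpa [Maj, pl3] using h3
  · simpa [Maj, pl4] using h4

theorem mem_blkA {ι : Type} [Fintype ι] [DecidableEq ι]
    {W : Finset ((ι → ZMod 2) × (ι → ZMod 2))} {p : P4 ι} :
    p ∈ blkA W ↔ (∀ i, Maj (p i)) ∧
      ((fun i => p i 0 + p i 2), (fun i => p i 1 + p i 2)) ∈ W := by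
  simp only [blkA, Finset.mem_filter, Finset.mem_univ, true_and, Maj]

theorem z2_aab (a b : ZMod 2) : a + b + b = a := by
  revert a b; decide

theorem card_blkA {ι : Type} [Fintype ι] [DecidableEq ι]
    (W : Finset ((ι → ZMod 2) × (ι → ZMod 2))) :
    (blkA W).card = 2 ^ Fintype.card ι * W.card := by
  have h : ((univ : Finset (ι → ZMod 2)) ×ˢ W).card = 2 ^ Fintype.card ι * W.card := by
    rw [Finset.card_product, Finset.card_univ, Fintype.card_fun, ZMod.card]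
  rw [← h]
  apply Finset.card_bij (fun p _ =>
    (((fun i => p i 2), ((fun i => p i 0 + p i 2), (fun i => p i 1 + p i 2))) :
      (ι → ZMod 2) × ((ι → ZMod 2) × (ι → ZMod 2))))
  · intro p hp
    rw [mem_blkA] at hp
    rw [Finset.mem_product]
    exact ⟨Finset.mem_univ _, hp.2⟩
  · intro p hp q hq hpq
    rw [mem_blkA] at hp hq
    have e2 : ∀ i, p i 2 = q i 2 := fun i => congrFun (congrArg (fun t => t.1) hpq) i
    have e0' : ∀ i, p i 0 + p i 2 = q i 0 + q i 2 := fun i =>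
      congrFun (congrArg (fun t => t.2.1) hpq) i
    have e1' : ∀ i, p i 1 + p i 2 = q i 1 + q i 2 := fun i =>
      congrFun (congrArg (fun t => t.2.2) hpq) i
    have e0 : ∀ i, p i 0 = q i 0 := fun i => by
      have := e0' i
      rw [e2 i] at this
      exact add_right_cancel this
    have e1 : ∀ i, p i 1 = q i 1 := fun i => by
      have := e1' i
      rw [e2 i] at this
      exact add_right_cancel this
    funext i j
    have e3 : p i 3 = q i 3 := by
      have h1 := hp.1 i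
      have h2 := hq.1 i
      unfold Maj at h1 h2
      rw [h1, h2, e0 i, e1 i, e2 i]
    fin_cases j
    · exact e0 i
    · exact e1 i
    · exact e2 i
    · exact e3
  · intro w hw
    rw [Finset.mem_product] at hw
    obtain ⟨c, u, v⟩ := w
    refine ⟨fun i => ![u i + c i, v i + c i, c i,
      (u i + c i) * (v i + c i) + (v i + c i) * c i + c i * (u i + c i)], ?_, ?_⟩
    · rw [mem_blkA]
      refine ⟨fun i => ?_, ?_⟩
      · simp [Maj]
      · have : ((fun i => u i + c i + c i), (fun i => v i + c i + c i)) = (u, v) := by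
          refine Prod.ext ?_ ?_ <;> funext i <;> exact z2_aab _ _
        simp only [Matrix.cons_val_zero, Matrix.cons_val_one, Matrix.cons_val]
        rw [this]
        exact hw.2
    · refine Prod.ext ?_ (Prod.ext ?_ ?_)
      · funext i; simp
      · funext i; simp [z2_aab]
      · funext i; simp [z2_aab]

theorem pt2_eq (s u4 u5 u6 u0 u2 : ZMod 2) :
    (u4 + s + u0 + u0) + (u4 + u5 + u6 + s + u0 + u0 + u2 + u2) = u4 + (u4 + u5 + u6) ∧
    u5 + (u4 + u5 + u6 + s + u0 + u0 + u2 + u2) = u5 + (u4 + u5 + u6) + s := by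
  revert s u4 u5 u6 u0 u2; decide +kernel

theorem pt3_eq (s u4 u5 u6 u0 u2 : ZMod 2) :
    u4 + (u4 + u5 + u6 + s + u0 + u0 + u2 + u2) = u4 + (u4 + u5 + u6) + s ∧
    (u5 + s + u2 + u2) + (u4 + u5 + u6 + s + u0 + u0 + u2 + u2) = u5 + (u4 + u5 + u6) := by
  revert s u4 u5 u6 u0 u2; decide +kernel

theorem pt4_eq (s u4 u5 u6 u0 u2 : ZMod 2) :
    (u4 + s + u0 + u0) + (u4 + u5 + u6) = u4 + (u4 + u5 + u6) + s ∧
    (u5 + s + u2 + u2) + (u4 + u5 + u6) = u5 + (u4 + u5 + u6) + s := by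
  revert s u4 u5 u6 u0 u2; decide +kernel

theorem sol_square {ι : Type} [Fintype ι] [DecidableEq ι]
    {W : Finset ((ι → ZMod 2) × (ι → ZMod 2))} {s : ι → ZMod 2} {μ : Lab ι}
    (h1 : (fun i => pl1 (μ i)) ∈ blkA W) (h2 : (fun i => pl2 (s i) (μ i)) ∈ blkA W)
    (h3 : (fun i => pl3 (s i) (μ i)) ∈ blkA W) (h4 : (fun i => pl4 (s i) (μ i)) ∈ blkA W) :
    (∀ i, μ i 0 = μ i 1 ∧ μ i 2 = μ i 3 ∧ (s i = 0 → μ i 0 = 0 ∧ μ i 2 = 0)) ∧
    ∃ x y : ι → ZMod 2, (x, y) ∈ W ∧ (x, y + s) ∈ W ∧ (x + s, y) ∈ W ∧ (x + s, y + s) ∈ W := by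
  rw [mem_blkA] at h1 h2 h3 h4
  have hl : ∀ i, μ i 0 = μ i 1 ∧ μ i 2 = μ i 3 ∧ (s i = 0 → μ i 0 = 0 ∧ μ i 2 = 0) := fun i =>
    loc_maj (s i) (μ i) (h1.1 i) (h2.1 i) (h3.1 i) (h4.1 i)
  refine ⟨hl, (fun i => μ i 4 + (μ i 4 + μ i 5 + μ i 6)),
    (fun i => μ i 5 + (μ i 4 + μ i 5 + μ i 6)), ?_, ?_, ?_, ?_⟩
  · have := h1.2
    simpa [pl1] using this
  · have := h2.2
    convert this using 1
    refine Prod.ext ?_ ?_ <;> funext i
    · have e := (pt2_eq (s i) (μ i 4) (μ i 5) (μ i 6) (μ i 0) (μ i 2)).1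
      simp only [pl2, Matrix.cons_val_zero, Matrix.cons_val_one, Matrix.cons_val]
      rw [← (hl i).1, ← (hl i).2.1]
      exact e.symm
    · have e := (pt2_eq (s i) (μ i 4) (μ i 5) (μ i 6) (μ i 0) (μ i 2)).2
      simp only [pl2, Matrix.cons_val_zero, Matrix.cons_val_one, Matrix.cons_val, Pi.add_apply]
      rw [← (hl i).1, ← (hl i).2.1]
      exact e.symm
  · have := h3.2
    convert this using 1
    refine Prod.ext ?_ ?_ <;> funext i
    · have e := (pt3_eq (s i) (μ i 4) (μ i 5) (μ i 6) (μ i 0) (μ i 2)).1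
      simp only [pl3, Matrix.cons_val_zero, Matrix.cons_val_one, Matrix.cons_val, Pi.add_apply]
      rw [← (hl i).1, ← (hl i).2.1]
      exact e.symm
    · have e := (pt3_eq (s i) (μ i 4) (μ i 5) (μ i 6) (μ i 0) (μ i 2)).2
      simp only [pl3, Matrix.cons_val_zero, Matrix.cons_val_one, Matrix.cons_val]
      rw [← (hl i).1, ← (hl i).2.1]
      exact e.symm
  · have := h4.2
    convert this using 1
    refine Prod.ext ?_ ?_ <;> funext i
    · have e := (pt4_eq (s i) (μ i 4) (μ i 5) (μ i 6) (μ i 0) (μ i 2)).1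
      simp only [pl4, Matrix.cons_val_zero, Matrix.cons_val_one, Matrix.cons_val, Pi.add_apply]
      rw [← (hl i).1]
      exact e.symm
    · have e := (pt4_eq (s i) (μ i 4) (μ i 5) (μ i 6) (μ i 0) (μ i 2)).2
      simp only [pl4, Matrix.cons_val_zero, Matrix.cons_val_one, Matrix.cons_val, Pi.add_apply]
      rw [← (hl i).2.1]
      exact e.symm

theorem pf_BA : T_BA := by
  intro ι _ _ W
  refine ⟨card_blkA W, fun hW => ⟨?_, ?_⟩⟩
  · intro s hs
    unfold Nsol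
    rw [Finset.card_eq_zero, Finset.filter_eq_empty_iff]
    rintro μ - ⟨h1, h2, h3, h4⟩
    obtain ⟨-, x, y, e1, e2, e3, e4⟩ := sol_square h1 h2 h3 h4
    exact hW x y s hs ⟨e1, e2, e3, e4⟩
  · rw [← card_blkA W]
    unfold Nsol
    apply Finset.card_le_card_of_injOn (fun μ : Lab ι => (fun i => pl1 (μ i) : P4 ι))
    · intro μ hμ
      simp only [Finset.coe_filter, Finset.mem_univ, true_and, Set.mem_ofPred_eq] at hμ
      exact hμ.1
    · intro μ hμ ν hν he
      simp only [Finset.coe_filter, Finset.mem_univ, true_and, Set.mem_ofPred_eq] at hμ hν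
      obtain ⟨a1, -⟩ := sol_square hμ.1 hμ.2.1 hμ.2.2.1 hμ.2.2.2
      obtain ⟨b1, -⟩ := sol_square hν.1 hν.2.1 hν.2.2.1 hν.2.2.2
      funext i j
      have hi : pl1 (μ i) = pl1 (ν i) := congrFun he i
      have k4 : μ i 4 = ν i 4 := by simpa [pl1] using congrFun hi 0
      have k5 : μ i 5 = ν i 5 := by simpa [pl1] using congrFun hi 1
      have k6 : μ i 4 + μ i 5 + μ i 6 = ν i 4 + ν i 5 + ν i 6 := by
        simpa [pl1] using congrFun hi 2
      have k7 : μ i 7 = ν i 7 := by simpa [pl1] using congrFun hi 3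
      rw [k4, k5] at k6
      have k6' : μ i 6 = ν i 6 := add_left_cancel k6
      obtain ⟨m1, m2, m3⟩ := a1 i
      obtain ⟨n1, n2, n3⟩ := b1 i
      obtain ⟨m3, m4⟩ := m3 rfl
      obtain ⟨n3, n4⟩ := n3 rfl
      fin_cases j
      · exact m3.trans n3.symm
      · exact (m1.symm.trans m3).trans (n1.symm.trans n3).symm
      · exact m4.trans n4.symm
      · exact (m2.symm.trans m4).trans (n2.symm.trans n4).symm
      · exact k4
      · exact k5
      · exact k6'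
      · exact k7

end Pool.Agent.H22.SB
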