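import Pool.Agent.H37.SB.Targets

namespace Pool.Agent.H22.SB

open Finset Pool.Agent.H36Sq Pool.Agent.H37.SB

/-- The first three bits are not all equal. -/
def Nq (p : Fin 4 → ZMod 2) : Prop := ¬ (p 0 = p 1 ∧ p 1 = p 2)

instance : DecidablePred Nq := fun p => by unfold Nq; infer_instance

theorem nq_card : (univ.filter (fun p : Fin 4 → ZMod 2 => Nq p)).card = 12 := by
  decide +kernel

theorem nq_sol : ∀ s : ZMod 2, (univ.filter (fun u : Fin 8 → ZMod 2 =>
    Nq (pl1 u) ∧ Nq (pl2 s u) ∧ Nq (pl3 s u) ∧ Nq (pl4 s u))).card =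
      if s = 0 then 48 else 96 := by
  decide +kernel

theorem mem_blkN {ι : Type} [Fintype ι] [DecidableEq ι] {p : P4 ι} :
    p ∈ blkN ι ↔ ∀ i, Nq (p i) := by
  simp only [blkN, Finset.mem_filter, Finset.mem_univ, true_and, Nq]

theorem card_blkN (ι : Type) [Fintype ι] [DecidableEq ι] :
    (blkN ι).card = 12 ^ Fintype.card ι := by
  have h : blkN ι = Fintype.piFinset (fun _ : ι =>
      univ.filter (fun p : Fin 4 → ZMod 2 => Nq p)) := by
    ext p
    rw [mem_blkN, Fintype.mem_piFinset]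
    simp only [Finset.mem_filter, Finset.mem_univ, true_and]
  rw [h, Fintype.card_piFinset, nq_card, Finset.prod_const, Finset.card_univ]

theorem nsol_blkN (ι : Type) [Fintype ι] [DecidableEq ι] (s : ι → ZMod 2) :
    Nsol (blkN ι) s = ∏ i, (if s i = 0 then 48 else 96) := by
  unfold Nsol
  have h : (univ.filter (fun μ : Lab ι => (fun i => pl1 (μ i)) ∈ blkN ι ∧
      (fun i => pl2 (s i) (μ i)) ∈ blkN ι ∧ (fun i => pl3 (s i) (μ i)) ∈ blkN ι ∧
      (fun i => pl4 (s i) (μ i)) ∈ blkN ι)) = Fintype.piFinset (fun i : ι =>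
        univ.filter (fun u : Fin 8 → ZMod 2 =>
          Nq (pl1 u) ∧ Nq (pl2 (s i) u) ∧ Nq (pl3 (s i) u) ∧ Nq (pl4 (s i) u))) := by
    ext μ
    rw [Fintype.mem_piFinset]
    simp only [Finset.mem_filter, Finset.mem_univ, true_and, mem_blkN]
    constructor
    · rintro ⟨h1, h2, h3, h4⟩ i
      exact ⟨h1 i, h2 i, h3 i, h4 i⟩
    · intro h
      exact ⟨fun i => (h i).1, fun i => (h i).2.1, fun i => (h i).2.2.1, fun i => (h i).2.2.2⟩
  rw [h, Fintype.card_piFinset]
  exact Finset.prod_congr rfl (fun i _ => nq_sol (s i))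

theorem pf_BN : T_BN := by
  intro ι _ _
  refine ⟨card_blkN ι, ?_, ?_⟩
  · rw [nsol_blkN]
    simp
  · have h1 : ∑ s : ι → ZMod 2, Nsol (blkN ι) s =
        ∑ s : ι → ZMod 2, ∏ i, (if s i = 0 then 48 else 96) :=
      Finset.sum_congr rfl (fun s _ => nsol_blkN ι s)
    have h2 : (∏ _i : ι, ∑ x : ZMod 2, (if x = 0 then 48 else 96)) =
        ∑ s : ι → ZMod 2, ∏ i, (if s i = 0 then 48 else 96) := by
      rw [Finset.prod_univ_sum]
      simp only [Fintype.piFinset_univ]
    rw [h1, ← h2, Finset.prod_const, Finset.card_univ]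
    congr 1

end Pool.Agent.H22.SB
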