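import Pool.Agent.H37.SB.Targets

namespace Pool.Agent.H22.SB

open Finset Pool.Agent.H36Sq Pool.Agent.H37.SB

theorem two_zero {𝔽 : Type} [Field 𝔽] [Fintype 𝔽] (h : Fintype.card 𝔽 = 4) : (2 : 𝔽) = 0 := by
  have h1 : ((Fintype.card 𝔽 : ℕ) : 𝔽) = 0 := Nat.cast_card_eq_zero 𝔽
  rw [h] at h1
  have h2 : (2 : 𝔽) * 2 = 0 := by
    have : (2 : 𝔽) * 2 = ((4 : ℕ) : 𝔽) := by norm_num
    rw [this]; exact h1
  rcases mul_eq_zero.mp h2 with h3 | h3 <;> exact h3

theorem exists_w {𝔽 : Type} [Field 𝔽] [Fintype 𝔽] (h : Fintype.card 𝔽 = 4) :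
    ∃ w : 𝔽, w ≠ 0 ∧ w ≠ 1 ∧ w * w = w + 1 := by
  classical
  have h1 : ({0, 1} : Finset 𝔽).card < (univ : Finset 𝔽).card := by
    rw [Finset.card_univ, h]
    exact lt_of_le_of_lt Finset.card_le_two (by norm_num)
  obtain ⟨w, -, hw⟩ := Finset.exists_mem_notMem_of_card_lt_card h1
  simp only [Finset.mem_insert, Finset.mem_singleton, not_or] at hw
  obtain ⟨hw0, hw1⟩ := hw
  refine ⟨w, hw0, hw1, ?_⟩
  have h3 : w ^ (Fintype.card 𝔽 - 1) = 1 := FiniteField.pow_card_sub_one_eq_one w hw0
  rw [h] at h3
  have h4 : (w - 1) * (w ^ 2 + w + 1) = 0 := by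
    have : (w - 1) * (w ^ 2 + w + 1) = w ^ (4 - 1) - 1 := by ring
    rw [this, h3, sub_self]
  have h5 : w ^ 2 + w + 1 = 0 := by
    rcases mul_eq_zero.mp h4 with h6 | h6
    · exact absurd (sub_eq_zero.mp h6) hw1
    · exact h6
  have h2 := two_zero h
  linear_combination h5 - (w + 1) * h2

theorem pf_F4 : T_F4 := by
  intro 𝔽 _ _ hcard k L hL
  classical
  have h2 := two_zero hcard
  obtain ⟨w, hw0, hw1, hww⟩ := exists_w hcard
  have : CharP 𝔽 2 := CharTwo.of_one_ne_zero_of_two_eq_zero one_ne_zero h2
  set c : ZMod 2 →+* 𝔽 := ZMod.castHom (dvd_refl 2) 𝔽 with hc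
  set f : ZMod 2 → ZMod 2 → 𝔽 := fun a b => c a + c b * w with hf
  have fadd : ∀ a b a' b', f (a + a') (b + b') = f a b + f a' b' := by
    intro a b a' b'
    simp only [hf, map_add]
    ring
  have fw : ∀ a b, w * f a b = f b (a + b) := by
    intro a b
    simp only [hf, map_add]
    linear_combination (c b) * hww
  have fker : ∀ a b, f a b = 0 → a = 0 ∧ b = 0 := by
    intro a b hab
    have hz : ∀ z : ZMod 2, z = 0 ∨ z = 1 := by decide
    simp only [hf] at hab
    rcases hz b with rfl | rfl
    · rw [map_zero, zero_mul, add_zero] at hab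
      rcases hz a with rfl | rfl
      · exact ⟨rfl, rfl⟩
      · rw [map_one] at hab
        exact absurd hab one_ne_zero
    · exfalso
      rw [map_one, one_mul] at hab
      rcases hz a with rfl | rfl
      · rw [map_zero, zero_add] at hab
        exact hw0 hab
      · rw [map_one] at hab
        apply hw1
        linear_combination hab - h2
  have finj : Function.Injective (fun p : ZMod 2 × ZMod 2 => f p.1 p.2) := by
    intro p q hpq
    have h3 : f (p.1 + q.1) (p.2 + q.2) = 0 := by
      rw [fadd]
      simp only at hpq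
      rw [hpq]
      linear_combination (f q.1 q.2) * h2
    obtain ⟨e1, e2⟩ := fker _ _ h3
    have hz : ∀ a b : ZMod 2, a + b = 0 → a = b := by decide
    exact Prod.ext (hz _ _ e1) (hz _ _ e2)
  have fbij : Function.Bijective (fun p : ZMod 2 × ZMod 2 => f p.1 p.2) := by
    rw [Fintype.bijective_iff_injective_and_card]
    refine ⟨finj, ?_⟩
    rw [Fintype.card_prod, ZMod.card, hcard]
  refine ⟨univ.filter (fun p : (Fin k → ZMod 2) × (Fin k → ZMod 2) =>
    (fun i => f (p.1 i) (p.2 i)) ∈ L), ?_, ?_⟩
  · intro x y u v huv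
    simp only [Finset.mem_filter, Finset.mem_univ, true_and]
    rintro ⟨h1, h3, h4, h5⟩
    have hD : (fun i => f (u i) (v i)) ≠ 0 := by
      intro h0
      rcases huv with h | h
      · apply h
        funext i
        exact (fker _ _ (congrFun h0 i)).1
      · apply h
        funext i
        exact (fker _ _ (congrFun h0 i)).2
    obtain ⟨t, ht⟩ := hL (fun i => f (x i) (y i)) (fun i => f (u i) (v i)) hD
    obtain ⟨⟨a, b⟩, hab⟩ := fbij.2 t
    simp only at hab
    have hz : ∀ z : ZMod 2, z = 0 ∨ z = 1 := by decide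
    apply ht
    rw [← hab]
    have key : ∀ i, (c a + c b * w) * f (u i) (v i) =
        f (a * u i + b * v i) (a * v i + b * (u i + v i)) := by
      intro i
      have e1 : (c a + c b * w) * f (u i) (v i) = c a * f (u i) (v i) + c b * (w * f (u i) (v i)) := by
        ring
      rw [e1, fw]
      simp only [hf, map_add, map_mul]
      ring
    rcases hz a with rfl | rfl <;> rcases hz b with rfl | rfl
    · convert h1 using 1
      funext i
      simp only [Pi.add_apply, Pi.smul_apply, smul_eq_mul]
      simp only [hf, map_zero, zero_mul, add_zero]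
    · convert h4 using 1
      funext i
      simp only [Pi.add_apply, Pi.smul_apply, smul_eq_mul]
      rw [fadd]
      congr 1
      have := key i
      simp only [zero_mul, one_mul, zero_add] at this
      exact this
    · convert h3 using 1
      funext i
      simp only [Pi.add_apply, Pi.smul_apply, smul_eq_mul]
      rw [fadd]
      congr 1
      have := key i
      simp only [zero_mul, one_mul, add_zero] at this
      exact this
    · convert h5 using 1
      funext i
      simp only [Pi.add_apply, Pi.smul_apply, smul_eq_mul]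
      rw [fadd]
      congr 1
      have := key i
      simp only [one_mul] at this
      have hz2 : ∀ p q : ZMod 2, q + (p + q) = p := by decide
      rw [hz2] at this
      exact this
  · apply Finset.card_bij (fun p _ => fun i => f (p.1 i) (p.2 i))
    · intro p hp
      simp only [Finset.mem_filter, Finset.mem_univ, true_and] at hp
      exact hp
    · intro p _ q _ hpq
      refine Prod.ext ?_ ?_ <;> funext i
      · have := finj (a₁ := (p.1 i, p.2 i)) (a₂ := (q.1 i, q.2 i)) (congrFun hpq i)
        exact congrArg Prod.fst this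
      · have := finj (a₁ := (p.1 i, p.2 i)) (a₂ := (q.1 i, q.2 i)) (congrFun hpq i)
        exact congrArg Prod.snd this
    · intro l hl
      choose g hg using fun i => fbij.2 (l i)
      refine ⟨((fun i => (g i).1), (fun i => (g i).2)), ?_, ?_⟩
      · simp only [Finset.mem_filter, Finset.mem_univ, true_and]
        have : (fun i => f (g i).1 (g i).2) = l := funext hg
        rw [this]
        exact hl
      · exact funext hg

end Pool.Agent.H22.SB
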