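import Pool.Agent.H37.SB.Targets

namespace Pool.Agent.H22.SB

open Finset Pool.Agent.H36Sq Pool.Agent.H37.SB

theorem pf_FINS (h0 : T_GE) (h1 : T_INS) (h2 : T_NUM) : T_FINS := by
  intro c hc hc2 k S hS
  have hc5 : 5 ≤ c := h0 c hc
  set e : ℝ := (16 - 3 * c) / (13 * (c - 1)) with he
  have hpos : 0 < 13 * (c - 1) := by linarith
  have he1 : e ≤ 1 / 2 := by
    rw [he, div_le_iff₀ hpos]
    linarith
  rcases Nat.eq_zero_or_pos k with rfl | hk
  · have h3 : S.card ≤ 1 := by
      refine le_trans (Finset.card_le_univ S) ?_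
      simp
    simp only [Nat.cast_zero, mul_zero, Real.rpow_zero]
    exact_mod_cast h3
  · have : Nonempty (Fin k) := ⟨⟨0, hk⟩⟩
    have hk0 : (0 : ℝ) < k := by exact_mod_cast hk
    rcases lt_or_ge S.card (2 ^ k) with hlt | hge
    · have h3 : (S.card : ℝ) ≤ (2 : ℝ) ^ k := by exact_mod_cast hlt.le
      have h4 : (2 : ℝ) ^ k = (4 : ℝ) ^ ((1 / 2 : ℝ) * k) := by
        rw [Real.rpow_mul (by norm_num)]
        rw [Real.rpow_natCast]
        congr 1
        rw [← Real.sqrt_eq_rpow]
        rw [show (4 : ℝ) = 2 * 2 by norm_num]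
        exact (Real.sqrt_mul_self (by norm_num)).symm
      rw [h4] at h3
      refine le_trans h3 ?_
      apply Real.rpow_le_rpow_of_exponent_le (by norm_num)
      apply mul_le_mul_of_nonneg_right _ hk0.le
      linarith
    · have h3 := h1 c hc (Fin k) S hS (by rw [Fintype.card_fin]; exact hge)
      rw [Fintype.card_fin] at h3
      have hS0 : (0 : ℝ) < S.card := by
        have : 0 < 2 ^ k := by positivity
        have h4 : 0 < S.card := lt_of_lt_of_le this hge
        exact_mod_cast h4
      have h5 := h2 ((S.card : ℝ) / 4 ^ k) c 26 12 64 k (by positivity) (by linarith)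
        (by norm_num) h3
      rw [div_le_iff₀ (by positivity)] at h5
      refine le_trans h5 (le_of_eq ?_)
      have h6 : (4 : ℝ) ^ k = (2 : ℝ) ^ (2 * (k : ℝ)) := by
        rw [Real.rpow_mul (by norm_num), Real.rpow_natCast]
        norm_num
      have h7 : (4 : ℝ) ^ ((1 - e) * k) = (2 : ℝ) ^ (2 * ((1 - e) * k)) := by
        rw [Real.rpow_mul (by norm_num) 2 ((1 - e) * k)]
        norm_num
      rw [h6, h7, ← Real.rpow_add (by norm_num)]
      congr 1
      rw [he]
      push_cast
      have hne : c - 1 ≠ 0 := by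
        have : 0 < c - 1 := by linarith
        exact this.ne'
      field_simp
      ring

end Pool.Agent.H22.SB
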