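import Pool.Agent.H37.SB.Targets

namespace Pool.Agent.H22.SB

open Finset Pool.Agent.H36Sq Pool.Agent.H37.SB

theorem card_powW {ι : Type} [Fintype ι] [DecidableEq ι] (n : ℕ)
    (W : Finset ((ι → ZMod 2) × (ι → ZMod 2))) : (powW n W).card = W.card ^ n := by
  have h : (Fintype.piFinset (fun _ : Fin n => W)).card = W.card ^ n := by
    rw [Fintype.card_piFinset]; simp
  rw [← h]
  apply Finset.card_bij
    (fun v _ => fun j => (((fun i => v.1 (j, i)), (fun i => v.2 (j, i))) :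
      (ι → ZMod 2) × (ι → ZMod 2)))
  · intro v hv
    simp only [powW, Finset.mem_filter, Finset.mem_univ, true_and] at hv
    rw [Fintype.mem_piFinset]
    exact hv
  · intro v _ w _ hvw
    apply Prod.ext
    · funext ⟨j, i⟩
      exact congrFun (congrArg Prod.fst (congrFun hvw j)) i
    · funext ⟨j, i⟩
      exact congrFun (congrArg Prod.snd (congrFun hvw j)) i
  · intro w hw
    rw [Fintype.mem_piFinset] at hw
    refine ⟨((fun p => (w p.1).1 p.2), (fun p => (w p.1).2 p.2)), ?_, rfl⟩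
    simp only [powW, Finset.mem_filter, Finset.mem_univ, true_and]
    intro j
    exact hw j

theorem mem_powW {ι : Type} [Fintype ι] [DecidableEq ι] {n : ℕ}
    {W : Finset ((ι → ZMod 2) × (ι → ZMod 2))}
    {p : (Fin n × ι → ZMod 2) × (Fin n × ι → ZMod 2)} :
    p ∈ powW n W ↔ ∀ j, ((fun a => p.1 (j, a)), (fun a => p.2 (j, a))) ∈ W := by
  simp only [powW, Finset.mem_filter, Finset.mem_univ, true_and]

theorem exists_ne {ι : Type} {n : ℕ} {d : Fin n × ι → ZMod 2} (hd : d ≠ 0) :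
    ∃ j, (fun a => d (j, a)) ≠ 0 := by
  by_contra h
  push Not at h
  apply hd
  funext ⟨j, a⟩
  exact congrFun (h j) a

theorem pf_POW : T_POW := by
  intro ι _ _ n W
  refine ⟨card_powW n W, ?_, ?_, ?_⟩
  · intro hW x y d hd
    rintro ⟨h1, h2, h3, h4⟩
    rw [mem_powW] at h1 h2 h3 h4
    obtain ⟨j, hj⟩ := exists_ne hd
    exact hW (fun a => x (j, a)) (fun a => y (j, a)) (fun a => d (j, a)) hj
      ⟨h1 j, h2 j, h3 j, h4 j⟩
  · intro hW x y u v huv
    rintro ⟨h1, h2, h3, h4⟩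
    rw [mem_powW] at h1 h2 h3 h4
    obtain ⟨j, hj⟩ : ∃ j, (fun a => u (j, a)) ≠ 0 ∨ (fun a => v (j, a)) ≠ 0 := by
      rcases huv with h | h
      · obtain ⟨j, hj⟩ := exists_ne h
        exact ⟨j, Or.inl hj⟩
      · obtain ⟨j, hj⟩ := exists_ne h
        exact ⟨j, Or.inr hj⟩
    exact hW (fun a => x (j, a)) (fun a => y (j, a)) (fun a => u (j, a)) (fun a => v (j, a)) hj
      ⟨h1 j, h2 j, h3 j, h4 j⟩
  · intro hW x y d hd
    rintro ⟨h1, h2, h3, h4⟩
    refine hW x y d 0 (Or.inl hd) ⟨h1, ?_, ?_, ?_⟩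
    · simpa using h3
    · simpa using h2
    · simpa using h4

end Pool.Agent.H22.SB
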